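import Pool.Agent.Helper14.GS.StD

set_option autoImplicit false

/-! Project GS (MP_627c93_nt): the module D11 (the determinant inequality). -/

namespace Pool.Agent.Helper61.GS

open Pool.Agent.Helper14.GS Polynomial

theorem om_inj {a b L : ℕ} (hab : Nat.Coprime a b) (hb : L ≤ b) :
    Function.Injective (fun c : Fin L × Fin L => ((b * (c.1 : ℕ) + a * (c.2 : ℕ) : ℕ) : ℝ)) := by
  rintro ⟨⟨i, hi⟩, ⟨j, hj⟩⟩ ⟨⟨i', hi'⟩, ⟨j', hj'⟩⟩ h
  simp only [Nat.cast_inj] at h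
  have h0 : (b : ℤ) * i + a * j = b * i' + a * j' := by exact_mod_cast h
  have h1 : (b : ℤ) ∣ a * ((j' : ℤ) - j) := ⟨(i : ℤ) - i', by linarith⟩
  have h2 : (b : ℤ) ∣ (j' : ℤ) - j :=
    IsCoprime.dvd_of_dvd_mul_left (Nat.isCoprime_iff_coprime.2 hab.symm) h1
  have h3 : (j' : ℤ) - j = 0 :=
    Int.eq_zero_of_abs_lt_dvd h2 (by rw [abs_lt]; constructor <;> omega)
  have h4 : j = j' := by omega
  subst h4
  have h5 : b * i = b * i' := by omega
  have h6 : i = i' := Nat.eq_of_mul_eq_mul_left (by omega) h5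
  subst h6
  rfl

theorem xx_inj {p q L : ℕ} (hp : p.Prime) (hq : q.Prime) (hpq : p ≠ q) :
    Function.Injective (fun c : Fin L × Fin L => ((p ^ (c.1 : ℕ) * q ^ (c.2 : ℕ) : ℕ) : ℝ)) := by
  rintro ⟨⟨i, hi⟩, ⟨j, hj⟩⟩ ⟨⟨i', hi'⟩, ⟨j', hj'⟩⟩ h
  simp only [Nat.cast_inj] at h
  have hp0 := hp.pos
  have hq0 := hq.pos
  have key : ∀ m n : ℕ, (p ^ m * q ^ n).factorization p = m ∧
      (p ^ m * q ^ n).factorization q = n := by
    intro m n
    rw [Nat.factorization_mul (by positivity) (by positivity), Nat.Prime.factorization_pow hp,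
      Nat.Prime.factorization_pow hq]
    simp [hpq, hpq.symm]
  have h1 := (key i j).1
  have h2 := (key i j).2
  rw [h] at h1 h2
  have h3 := (key i' j').1.symm.trans h1
  have h4 := (key i' j').2.symm.trans h2
  subst h3
  subst h4
  rfl

theorem low {ι : Type} [Fintype ι] [DecidableEq ι] (M : Matrix ι ι ℝ) (d T : ℕ) (t : ι → ℕ)
    (ht : ∀ ρ, t ρ ≤ T) (hd : 1 ≤ d) (hM : ∀ ρ c, ∃ g : ℤ, (d : ℝ) ^ (t ρ) * M ρ c = g)
    (h0 : M.det ≠ 0) : 1 ≤ (d : ℝ) ^ (T * Fintype.card ι) * |M.det| := by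
  choose g hg using hM
  have h1 : (Matrix.of fun ρ c => (d : ℝ) ^ (t ρ) * M ρ c).det
      = (∏ ρ, (d : ℝ) ^ (t ρ)) * M.det := Matrix.det_mul_column _ _
  have h2 : (Matrix.of fun ρ c => (d : ℝ) ^ (t ρ) * M ρ c)
      = (Matrix.of g).map (Int.castRingHom ℝ) := by
    ext ρ c
    simp [hg]
  have h3 : (Matrix.of fun ρ c => (d : ℝ) ^ (t ρ) * M ρ c).det = ((Matrix.of g).det : ℝ) := by
    rw [h2, ← RingHom.mapMatrix_apply, ← RingHom.map_det]
    simp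
  have hd' : (1 : ℝ) ≤ d := by exact_mod_cast hd
  have hpp : ∏ ρ, (d : ℝ) ^ (t ρ) ≤ (d : ℝ) ^ (T * Fintype.card ι) := by
    rw [Finset.prod_pow_eq_pow_sum]
    apply pow_le_pow_right₀ hd'
    calc ∑ ρ, t ρ ≤ ∑ _ρ : ι, T := Finset.sum_le_sum (fun ρ _ => ht ρ)
      _ = T * Fintype.card ι := by simp [mul_comm]
  have hp0 : 0 < ∏ ρ, (d : ℝ) ^ (t ρ) := Finset.prod_pos (fun ρ _ => by positivity)
  have h4 : (Matrix.of g).det ≠ 0 := by
    intro h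
    rw [h, h1] at h3
    simp only [Int.cast_zero, mul_eq_zero] at h3
    rcases h3 with h3 | h3
    · exact hp0.ne' h3
    · exact h0 h3
  have h5 : (1 : ℝ) ≤ |((Matrix.of g).det : ℝ)| := by
    have := Int.one_le_abs h4
    exact_mod_cast this
  rw [← h3, h1, abs_mul, abs_of_pos hp0] at h5
  exact h5.trans (mul_le_mul_of_nonneg_right hpp (abs_nonneg _))


/-- Bounds for the exponents. -/
theorem mu_bd {a b lp lq η i j L X : ℝ} (hη : η = lq - a / b * lp) (h1 : |η| ≤ 1)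
    (ha : 0 ≤ a / b) (hlp : 0 ≤ lp) (hi : 0 ≤ i) (hiL : i ≤ L) (hj : 0 ≤ j)
    (hjL : j ≤ L) (hX : 0 ≤ X) :
    0 ≤ (i + a / b * j) * lp ∧ (i + a / b * j) * lp * X ≤ L * (lp + lq + 1) * X := by
  have h2 : a / b * lp ≤ lq + 1 := by
    have := (abs_le.1 h1).1
    linarith
  have h3 : 0 ≤ a / b * lp := by positivity
  refine ⟨by positivity, mul_le_mul_of_nonneg_right ?_ hX⟩
  calc (i + a / b * j) * lp = i * lp + j * (a / b * lp) := by ring
    _ ≤ L * lp + L * (lq + 1) :=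
        add_le_add (mul_le_mul_of_nonneg_right hiL hlp)
          (mul_le_mul hjL h2 h3 (hj.trans hjL))
    _ = L * (lp + lq + 1) := by ring

/-- The error of the entries. -/
theorem err_bd {a b lp lq η i j s L S : ℝ} (hη : η = lq - a / b * lp) (hj : 0 ≤ j)
    (hjL : j ≤ L) (hs : 0 ≤ s) (hsS : s ≤ S) (h1 : |η| * L * S ≤ 1) :
    |Real.exp (s * (i * lp + j * lq)) - Real.exp ((i + a / b * j) * lp * s)| ≤
      Real.exp (s * (i * lp + j * lq)) * (2 * |η| * L * S) := by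
  have h2 : (i + a / b * j) * lp * s = s * (i * lp + j * lq) + (-(η * j * s)) := by
    rw [hη]; ring
  have h3 : |-(η * j * s)| ≤ |η| * L * S := by
    rw [abs_neg, abs_mul, abs_mul, abs_of_nonneg hj, abs_of_nonneg hs]
    exact mul_le_mul (mul_le_mul_of_nonneg_left hjL (abs_nonneg _)) hsS hs
      (mul_nonneg (abs_nonneg _) (hj.trans hjL))
  have h4 := Real.abs_exp_sub_one_le (h3.trans h1)
  rw [h2, Real.exp_add]
  have h5 : Real.exp (s * (i * lp + j * lq)) - Real.exp (s * (i * lp + j * lq)) *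
      Real.exp (-(η * j * s)) = -(Real.exp (s * (i * lp + j * lq)) *
        (Real.exp (-(η * j * s)) - 1)) := by ring
  rw [h5, abs_neg, abs_mul, abs_of_pos (Real.exp_pos _)]
  refine mul_le_mul_of_nonneg_left ?_ (Real.exp_pos _).le
  calc |Real.exp (-(η * j * s)) - 1| ≤ 2 * |-(η * j * s)| := h4
    _ ≤ 2 * (|η| * L * S) := by linarith
    _ = 2 * |η| * L * S := by ring

theorem D11 (h1 : StD1) (h2 : StD2) (h5 : StD5) (h9 : StD9) (h10 : StD10) : StD11 := by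
  intro p q a b B h d k L T S K E hp hq hpq hab hL hLa hLb haB hbB hh hk hT hE hd hdiv hLS hc1
    hc2 hc3 hη
  have hb0 : (0 : ℝ) < b := by exact_mod_cast (by omega : 0 < b)
  have ha0 : (0 : ℝ) < a := by exact_mod_cast (by omega : 0 < a)
  have hlp : 0 < Real.log p := Real.log_pos (by exact_mod_cast hp.one_lt)
  have hlq : 0 < Real.log q := Real.log_pos (by exact_mod_cast hq.one_lt)
  have hp0 : (0 : ℝ) < p := by exact_mod_cast hp.pos
  have hq0 : (0 : ℝ) < q := by exact_mod_cast hq.pos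
  have hL1 : (1 : ℝ) ≤ L := by exact_mod_cast hL
  have hS1' : 1 ≤ S := le_trans (Nat.one_le_pow _ _ hL) hLS
  have hS1 : (1 : ℝ) ≤ S := by exact_mod_cast hS1'
  have hE1 : (1 : ℝ) ≤ E := by exact_mod_cast hE
  have hB1 : (1 : ℝ) ≤ B := by exact_mod_cast (by omega : 1 ≤ B)
  obtain ⟨η, hηd⟩ : ∃ η : ℝ, η = Real.log q - (a : ℝ) / b * Real.log p := ⟨_, rfl⟩
  rw [← hηd] at hη
  have hEK : (1 : ℝ) ≤ (E : ℝ) ^ K := one_le_pow₀ hE1
  have hη2 : 2 * |η| * L * S ≤ 1 := by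
    refine le_trans ?_ hη
    exact le_mul_of_one_le_right (by positivity) hEK
  have hη3 : |η| * L * S ≤ 1 := by
    have : 0 ≤ |η| * L * S := by positivity
    linarith
  have hη4 : |η| ≤ 1 := by
    refine le_trans ?_ hη3
    rw [mul_assoc]
    exact le_mul_of_one_le_right (abs_nonneg _) (one_le_mul_of_one_le_of_one_le hL1 hS1)
  obtain ⟨A, hA⟩ : ∃ A : ℝ, A = (2 : ℝ) ^ ((E * S + 1 + h) * k) * (2 * L * B) ^ T *
        Real.exp (L * (Real.log p + Real.log q + 1) * (E * S)) := ⟨_, rfl⟩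
  rw [← hA]
  obtain ⟨om, hom⟩ : ∃ om : Fin L × Fin L → ℝ, om = fun c : Fin L × Fin L =>
    ((b * (c.1 : ℕ) + a * (c.2 : ℕ) : ℕ) : ℝ) := ⟨_, rfl⟩
  obtain ⟨xx, hxx⟩ : ∃ xx : Fin L × Fin L → ℝ, xx = fun c : Fin L × Fin L =>
    ((p ^ (c.1 : ℕ) * q ^ (c.2 : ℕ) : ℕ) : ℝ) := ⟨_, rfl⟩
  obtain ⟨mu, hmu⟩ : ∃ mu : Fin L × Fin L → ℝ, mu = fun c : Fin L × Fin L =>
    (((c.1 : ℕ) : ℝ) + (a : ℝ) / b * ((c.2 : ℕ) : ℝ)) * Real.log p := ⟨_, rfl⟩
  have hkh : 1 ≤ k * h := Nat.mul_pos hk hh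
  obtain ⟨f, hf, hdet⟩ := h5 (Fin L × Fin L) (L ^ 2) (k * h) S T h om xx (by simp [sq]) hkh hh hT
    hLS hc1 hc2 (by rw [hom]; exact om_inj hab hLb) (by rw [hxx]; exact xx_inj hp hq hpq)
    (fun i => by rw [hxx]; have := hp.pos; have := hq.pos; positivity)
  obtain ⟨M, hM⟩ : ∃ M : Matrix (Fin (k * h) × (Fin L × Fin L)) (Fin (k * h) × (Fin L × Fin L)) ℝ,
    M = Matrix.of fun ρ c : Fin (k * h) × (Fin L × Fin L) =>
      (hasseDeriv (f ρ).2.1 (felP h c.1)).eval ((f ρ).1 : ℝ) * om c.2 ^ (f ρ).2.2 *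
        xx c.2 ^ (f ρ).1 := ⟨_, rfl⟩
  have hMd : M.det ≠ 0 := by rw [hM]; exact hdet
  have hMe : ∀ ρ c, M ρ c = (hasseDeriv (f ρ).2.1 (felP h c.1)).eval ((f ρ).1 : ℝ) *
      om c.2 ^ (f ρ).2.2 * xx c.2 ^ (f ρ).1 := fun ρ c => by rw [hM]; rfl
  have hcard : Fintype.card (Fin (k * h) × (Fin L × Fin L)) = k * h * L ^ 2 := by
    simp [sq]
  -- the lower bound
  have hlow := low M d T (fun ρ => (f ρ).2.1) (fun ρ => by have := (hf ρ).2; omega) hd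
    (fun ρ c => by
      obtain ⟨g, hg⟩ := h1 h c.1 d (f ρ).1 (f ρ).2.1 hh hd hdiv
      refine ⟨g * ((b * (c.2.1 : ℕ) + a * (c.2.2 : ℕ) : ℕ) : ℤ) ^ (f ρ).2.2 *
        ((p ^ (c.2.1 : ℕ) * q ^ (c.2.2 : ℕ) : ℕ) : ℤ) ^ (f ρ).1, ?_⟩
      rw [hMe, hom, hxx]
      push_cast at hg ⊢
      rw [← hg]
      ring) hMd
  -- the identity of D10
  choose g hg using fun ρ => h10 T (f ρ).2.1 (f ρ).2.2 (hf ρ).2
  obtain ⟨F, hF⟩ : ∃ F : Fin T → (Fin (k * h) × (Fin L × Fin L)) → ℂ → ℂ, F =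
    fun (a' : Fin T) (c : Fin (k * h) × (Fin L × Fin L)) (w : ℂ) =>
    aeval w (hasseDeriv (a' : ℕ) (felP h c.1)) * Complex.exp ((mu c.2 : ℂ) * w) := ⟨_, rfl⟩
  obtain ⟨G, hG⟩ : ∃ G : (Fin (k * h) × (Fin L × Fin L)) → Fin T → Fin T → ℂ, G = fun ρ a' j =>
    ((b : ℂ) / (Real.log p : ℂ)) ^ (f ρ).2.2 * g ρ a' j := ⟨_, rfl⟩
  have hmo : ∀ c, (b : ℝ) / Real.log p * mu c = om c := by
    intro c
    rw [hmu, hom]
    push_cast
    field_simp
  have hmoC : ∀ c, (b : ℂ) / (Real.log p : ℂ) * (mu c : ℂ) = (om c : ℂ) := by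
    intro c
    rw [← hmo c]
    push_cast
    rfl
  have hsum : ∀ ρ c (z : ℂ), ∑ a', ∑ j, G ρ a' j * iteratedDeriv (j : ℕ) (F a' c) z =
      aeval z (hasseDeriv (f ρ).2.1 (felP h c.1)) * (om c.2 : ℂ) ^ (f ρ).2.2 *
        Complex.exp ((mu c.2 : ℂ) * z) := by
    intro ρ c z
    have e1 := hg ρ (felP h c.1) (mu c.2 : ℂ) z
    rw [hG, hF]
    calc _ = ((b : ℂ) / (Real.log p : ℂ)) ^ (f ρ).2.2 * ∑ a' : Fin T, ∑ j : Fin T, g ρ a' j *
          iteratedDeriv (j : ℕ) (fun w => aeval w (hasseDeriv (a' : ℕ) (felP h c.1)) *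
            Complex.exp ((mu c.2 : ℂ) * w)) z := by
          simp only [Finset.mul_sum, mul_assoc]
      _ = _ := by
          rw [← e1, ← hmoC, mul_pow]
          ring
  have hFd : ∀ a' c, Differentiable ℂ (F a' c) := by
    intro a' c
    rw [hF]
    exact (Polynomial.differentiable_aeval _).mul (by fun_prop)
  obtain ⟨n', hn'⟩ : ∃ n' : (Fin (k * h) × (Fin L × Fin L)) →
      (Fin (k * h) × (Fin L × Fin L)) → ℝ,
    n' = fun ρ c => (hasseDeriv (f ρ).2.1 (felP h c.1)).eval ((f ρ).1 : ℝ) *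
      om c.2 ^ (f ρ).2.2 * Real.exp (mu c.2 * (f ρ).1) := ⟨_, rfl⟩
  have hev : ∀ (P : ℝ[X]) (s : ℕ), aeval (s : ℂ) P = ((P.eval (s : ℝ) : ℝ) : ℂ) := by
    intro P s
    have := Polynomial.aeval_algebraMap_apply ℂ (s : ℝ) P
    simpa using this
  have hval : ∀ ρ c, (∑ a', ∑ j, G ρ a' j * iteratedDeriv (j : ℕ) (F a' c) ((f ρ).1 : ℂ)) +
      ((M ρ c - n' ρ c : ℝ) : ℂ) = (M ρ c : ℂ) := by
    intro ρ c
    rw [hsum, hev, hn']
    push_cast
    ring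
  -- bounds
  have hom0 : ∀ c, 0 ≤ om c := fun c => by rw [hom]; positivity
  have hom1 : ∀ c, om c ≤ 2 * L * B := by
    intro c
    rw [hom]
    have e1 : ((c.1 : ℕ) : ℝ) ≤ L := by exact_mod_cast c.1.2.le
    have e2 : ((c.2 : ℕ) : ℝ) ≤ L := by exact_mod_cast c.2.2.le
    have e3 : (a : ℝ) ≤ B := by exact_mod_cast haB
    have e4 : (b : ℝ) ≤ B := by exact_mod_cast hbB
    push_cast
    have e5 : (b : ℝ) * ((c.1 : ℕ) : ℝ) ≤ B * L := mul_le_mul e4 e1 (by positivity) (by positivity)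
    have e6 : (a : ℝ) * ((c.2 : ℕ) : ℝ) ≤ B * L := mul_le_mul e3 e2 (by positivity) (by positivity)
    linarith
  have hLB : (1 : ℝ) ≤ 2 * L * B := by nlinarith
  have homp : ∀ ρ c, om c ^ (f ρ).2.2 ≤ (2 * (L : ℝ) * B) ^ T := fun ρ c =>
    (pow_le_pow_left₀ (hom0 c) (hom1 c) _).trans
      (pow_le_pow_right₀ hLB (by have := (hf ρ).2; omega))
  have hD2 : ∀ (t : ℕ) (c : Fin (k * h)) (z : ℂ), ‖z‖ ≤ E * S →
      ‖aeval z (hasseDeriv t (felP h c))‖ ≤ (2 : ℝ) ^ ((E * S + 1 + h) * k) := by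
    intro t c z hz
    refine (h2 h c t (E * S) z hh (by push_cast; exact hz)).trans
      (pow_le_pow_right₀ one_le_two (Nat.mul_le_mul_left _ ?_))
    exact Nat.div_lt_of_lt_mul (lt_of_lt_of_eq c.2 (mul_comm _ _))
  have hmu0 : ∀ c, 0 ≤ mu c ∧ mu c * (E * S) ≤ L * (Real.log p + Real.log q + 1) * (E * S) := by
    intro c
    rw [hmu]
    exact mu_bd hηd hη4 (by positivity) hlp.le (Nat.cast_nonneg _)
      (by exact_mod_cast c.1.2.le) (Nat.cast_nonneg _) (by exact_mod_cast c.2.2.le) (by positivity)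
  have hsS : ∀ ρ, ((f ρ).1 : ℝ) ≤ S := fun ρ => by exact_mod_cast (hf ρ).1.le
  have hb1 : ∀ (x : ℂ), ‖x‖ ≤ E → ∀ ρ c : Fin (k * h) × (Fin L × Fin L), ‖aeval (x * ((f ρ).1 : ℂ))
      (hasseDeriv (f ρ).2.1 (felP h c.1)) * (om c.2 : ℂ) ^ (f ρ).2.2 *
        Complex.exp ((mu c.2 : ℂ) * (x * ((f ρ).1 : ℂ)))‖ ≤ A := by
    intro x hx ρ c
    have e1 : ‖x * ((f ρ).1 : ℂ)‖ ≤ E * S := by
      rw [norm_mul, Complex.norm_natCast]
      exact mul_le_mul hx (hsS ρ) (Nat.cast_nonneg _) (by positivity)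
    rw [norm_mul, norm_mul, norm_pow, Complex.norm_real, Real.norm_of_nonneg (hom0 _), hA]
    refine mul_le_mul (mul_le_mul (hD2 _ _ _ e1) (homp ρ c.2) (by have := hom0 c.2; positivity)
      (by positivity)) ?_ (norm_nonneg _) (by positivity)
    rw [Complex.norm_exp]
    refine Real.exp_le_exp.2 ((Complex.re_le_norm _).trans ?_)
    rw [norm_mul, Complex.norm_real, Real.norm_of_nonneg (hmu0 _).1]
    exact (mul_le_mul_of_nonneg_left e1 (hmu0 _).1).trans (hmu0 _).2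
  have hxx1 : ∀ c (s : ℕ), xx c ^ s = Real.exp (s * (((c.1 : ℕ) : ℝ) * Real.log p +
      ((c.2 : ℕ) : ℝ) * Real.log q)) := by
    intro c s
    rw [Real.exp_nat_mul, Real.exp_add, Real.exp_nat_mul, Real.exp_nat_mul, Real.exp_log hp0,
      Real.exp_log hq0, hxx]
    push_cast
    rfl
  have hxx2 : ∀ ρ c, xx c ^ (f ρ).1 ≤
      Real.exp (L * (Real.log p + Real.log q + 1) * (E * S)) := by
    intro ρ c
    rw [hxx1]
    refine Real.exp_le_exp.2 ?_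
    have e1 : ((c.1 : ℕ) : ℝ) ≤ L := by exact_mod_cast c.1.2.le
    have e2 : ((c.2 : ℕ) : ℝ) ≤ L := by exact_mod_cast c.2.2.le
    calc ((f ρ).1 : ℝ) * (((c.1 : ℕ) : ℝ) * Real.log p + ((c.2 : ℕ) : ℝ) * Real.log q)
        ≤ S * (L * Real.log p + L * Real.log q) :=
          mul_le_mul (hsS ρ) (add_le_add (mul_le_mul_of_nonneg_right e1 hlp.le)
            (mul_le_mul_of_nonneg_right e2 hlq.le)) (by positivity) (by positivity)
      _ = L * (Real.log p + Real.log q) * (1 * S) := by ring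
      _ ≤ L * (Real.log p + Real.log q + 1) * (E * S) := by
          refine mul_le_mul (mul_le_mul_of_nonneg_left (by linarith) (by positivity))
            (mul_le_mul_of_nonneg_right hE1 (by positivity)) (by positivity) (by positivity)
  have hb2 : ∀ (x : ℂ), ‖x‖ ≤ E → ∀ ρ c, ‖x ^ K * ((M ρ c - n' ρ c : ℝ) : ℂ)‖ ≤ A := by
    intro x hx ρ c
    have e0 : |xx c.2 ^ (f ρ).1 - Real.exp (mu c.2 * (f ρ).1)| ≤
        xx c.2 ^ (f ρ).1 * (2 * |η| * L * S) := by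
      rw [hxx1, hmu]
      exact err_bd hηd (Nat.cast_nonneg _) (by exact_mod_cast c.2.2.2.le) (Nat.cast_nonneg _)
        (hsS ρ) hη3
    have e1 : M ρ c - n' ρ c = (hasseDeriv (f ρ).2.1 (felP h c.1)).eval ((f ρ).1 : ℝ) *
        om c.2 ^ (f ρ).2.2 * (xx c.2 ^ (f ρ).1 - Real.exp (mu c.2 * (f ρ).1)) := by
      rw [hMe, hn']
      ring
    have e2 : |(hasseDeriv (f ρ).2.1 (felP h c.1)).eval ((f ρ).1 : ℝ)| ≤
        (2 : ℝ) ^ ((E * S + 1 + h) * k) := by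
      have := hD2 (f ρ).2.1 c.1 ((f ρ).1 : ℂ) (by
        rw [Complex.norm_natCast]
        exact (hsS ρ).trans (le_mul_of_one_le_left (by positivity) hE1))
      rwa [hev, Complex.norm_real, Real.norm_eq_abs] at this
    have e3 : 0 ≤ xx c.2 ^ (f ρ).1 := by rw [hxx1]; exact (Real.exp_pos _).le
    have e4 : 0 ≤ om c.2 ^ (f ρ).2.2 := pow_nonneg (hom0 _) _
    rw [norm_mul, norm_pow, Complex.norm_real, Real.norm_eq_abs, e1, abs_mul, abs_mul,
      abs_of_nonneg e4]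
    have e5 : |(hasseDeriv (f ρ).2.1 (felP h c.1)).eval ((f ρ).1 : ℝ)| *
        om c.2 ^ (f ρ).2.2 * |xx c.2 ^ (f ρ).1 - Real.exp (mu c.2 * (f ρ).1)| ≤
        (2 : ℝ) ^ ((E * S + 1 + h) * k) * (2 * L * B) ^ T *
        (Real.exp (L * (Real.log p + Real.log q + 1) * (E * S)) * (2 * |η| * L * S)) :=
      mul_le_mul (mul_le_mul e2 (homp ρ c.2) e4 (by positivity))
        (e0.trans (mul_le_mul_of_nonneg_right (hxx2 ρ c.2) (by positivity))) (abs_nonneg _)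
        (by positivity)
    calc ‖x‖ ^ K * (|(hasseDeriv (f ρ).2.1 (felP h c.1)).eval ((f ρ).1 : ℝ)| *
        om c.2 ^ (f ρ).2.2 * |xx c.2 ^ (f ρ).1 - Real.exp (mu c.2 * (f ρ).1)|)
        ≤ (E : ℝ) ^ K * ((2 : ℝ) ^ ((E * S + 1 + h) * k) * (2 * L * B) ^ T *
        (Real.exp (L * (Real.log p + Real.log q + 1) * (E * S)) * (2 * |η| * L * S))) :=
          mul_le_mul (pow_le_pow_left₀ (norm_nonneg _) hx _) e5
            (mul_nonneg (mul_nonneg (abs_nonneg _) e4) (abs_nonneg _)) (by positivity)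
      _ = A * (2 * |η| * L * S * (E : ℝ) ^ K) := by rw [hA]; ring
      _ ≤ A * 1 := mul_le_mul_of_nonneg_left hη (by rw [hA]; positivity)
      _ = A := mul_one A
  have hfin := h9 (Fin (k * h) × (Fin L × Fin L)) T K F (fun ρ => ((f ρ).1 : ℂ)) G
    (fun ρ c => ((M ρ c - n' ρ c : ℝ) : ℂ)) E (2 * A) hFd (by rw [hcard]; exact hc3) hE1
    (fun x hx ρ c => by
      refine (norm_add_le _ _).trans ?_
      rw [hsum]
      have e1 := hb1 x hx ρ c
      have e2 := hb2 x hx ρ c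
      linarith)
  have hmat : (Matrix.of fun ρ c : Fin (k * h) × (Fin L × Fin L) =>
      (∑ a', ∑ j, G ρ a' j * iteratedDeriv (j : ℕ) (F a' c) ((f ρ).1 : ℂ)) +
        ((M ρ c - n' ρ c : ℝ) : ℂ)) = Complex.ofRealHom.mapMatrix M := by
    ext ρ c
    rw [Matrix.of_apply, hval]
    rfl
  rw [hmat, ← RingHom.map_det, Complex.ofRealHom_eq_coe, Complex.norm_real, Real.norm_eq_abs,
    hcard] at hfin
  rw [hcard] at hlow
  have hEm : 0 < (E : ℝ) ^ (T * (K * (K - 1) / 2)) := by positivity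
  rw [le_div_iff₀ hEm] at hfin
  have hd0 : 0 ≤ (d : ℝ) ^ (T * (k * h * L ^ 2)) := by positivity
  calc (E : ℝ) ^ (T * (K * (K - 1) / 2))
      ≤ (d : ℝ) ^ (T * (k * h * L ^ 2)) * |M.det| * (E : ℝ) ^ (T * (K * (K - 1) / 2)) :=
        le_mul_of_one_le_left hEm.le hlow
    _ = (d : ℝ) ^ (T * (k * h * L ^ 2)) * (|M.det| * (E : ℝ) ^ (T * (K * (K - 1) / 2))) := by ring
    _ ≤ (d : ℝ) ^ (T * (k * h * L ^ 2)) * (((k * h * L ^ 2).factorial : ℝ) *
          (2 * A) ^ (k * h * L ^ 2)) := mul_le_mul_of_nonneg_left hfin hd0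
    _ = _ := by ring

end Pool.Agent.Helper61.GS
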